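import Mathlib

namespace Pool.Agent.Results.MP_f7d7fe_co.AllSizes

/-- The coset `v + L` in `ℤ^d`. -/
def coset {d : ℕ} (v : Fin d → ℤ) (L : AddSubgroup (Fin d → ℤ)) : Set (Fin d → ℤ) := {x | x - v ∈ L}

/-- `A` is a lattice translate: a coset of a subgroup of finite index of `ℤ^d`. -/
def IsLatticeTranslate {d : ℕ} (A : Set (Fin d → ℤ)) : Prop :=
  ∃ (v : Fin d → ℤ) (L : AddSubgroup (Fin d → ℤ)), L.FiniteIndex ∧ A = coset v L

/-- `T 0, …, T (n-1)` is a lattice tiling of `ℤ^d` with `n` lattice translates: every `T i` is a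
lattice translate and every point of `ℤ^d` lies in exactly one of them. -/
def IsLatticeTiling {d n : ℕ} (T : Fin n → Set (Fin d → ℤ)) : Prop :=
  (∀ i, IsLatticeTranslate (T i)) ∧ ∀ x, ∃! i, x ∈ T i

/-- The tiling splits: there is a partition of the index set into `k ≥ 2` nonempty blocks
`{i | I i = j}` (`j < k`), at least one of them with at least two elements, such that the union of
the tiles of each block is a single lattice translate. -/
def Splits {d n : ℕ} (T : Fin n → Set (Fin d → ℤ)) : Prop :=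
  ∃ (k : ℕ) (I : Fin n → Fin k), 2 ≤ k ∧ Function.Surjective I ∧ ¬ Function.Injective I ∧
    ∀ j, IsLatticeTranslate (⋃ i ∈ {i | I i = j}, T i)

/-! ### partitions of finite groups into cosets -/

section group

variable {G : Type} [AddCommGroup G]

/-- cosets in a group -/
def IsCos (A : Set G) : Prop := ∃ (v : G) (L : AddSubgroup G), A = {x | x - v ∈ L}

theorem IsCos.closed {A : Set G} (h : IsCos A) {x y z : G} (hx : x ∈ A) (hy : y ∈ A) (hz : z ∈ A) :
    x + y - z ∈ A := by
  obtain ⟨v, L, rfl⟩ := h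
  simp only [Set.mem_ofPred_eq] at *
  have := L.sub_mem (L.add_mem hx hy) hz
  have e : x + y - z - v = x - v + (y - v) - (z - v) := by abel
  rw [e]; exact this

/-- irreducible partition -/
structure Irr {ι : Type} (P : ι → Set G) : Prop where
  cos : ∀ i, IsCos (P i)
  cover : ∀ x, ∃! i, x ∈ P i
  irr : ∀ S : Set ι, IsCos (⋃ i ∈ S, P i) → S.Subsingleton ∨ S = Set.univ

theorem IsCos.nonempty {A : Set G} (h : IsCos A) : A.Nonempty := by
  obtain ⟨v, L, rfl⟩ := h
  exact ⟨v, by simp [L.zero_mem]⟩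

end group

open Classical in
/-- the doubling step -/
noncomputable def dbl {G ι : Type} (P : ι → Set G) (i1 i2 : ι) (a b c d : G) :
    ι ⊕ Bool → Set (G × ZMod 2) :=
  Sum.elim (fun i => if i = i1 ∨ i = i2 then P i ×ˢ {0} else P i ×ˢ Set.univ)
    (fun t => if t = true then {b, d} ×ˢ {1} else {a, c} ×ˢ {1})

theorem zmod2 (t : ZMod 2) : t = 0 ∨ t = 1 := by
  fin_cases t
  · left; rfl
  · right; rfl

theorem isCos_pair {G : Type} [AddCommGroup G] (h2 : ∀ x : G, x + x = 0) (a b : G) :
    IsCos ({a, b} : Set G) := by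
  refine ⟨a, AddSubgroup.zmultiples (b - a), ?_⟩
  ext x
  simp only [Set.mem_insert_iff, Set.mem_singleton_iff, Set.mem_ofPred_eq,
    AddSubgroup.mem_zmultiples_iff]
  constructor
  · rintro (rfl | rfl)
    · exact ⟨0, by simp⟩
    · exact ⟨1, by simp⟩
  · rintro ⟨k, hk⟩
    rcases Int.even_or_odd k with ⟨m, rfl⟩ | ⟨m, rfl⟩
    · left
      rw [add_smul, h2] at hk
      exact (sub_eq_zero.mp hk.symm)
    · right
      rw [add_smul, two_mul, add_smul, h2, zero_add, one_smul] at hk
      have := congrArg (· + a) hk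
      simpa using this.symm

theorem isCos_prod {G H : Type} [AddCommGroup G] [AddCommGroup H] {A : Set G} {B : Set H}
    (hA : IsCos A) (hB : IsCos B) : IsCos (A ×ˢ B) := by
  obtain ⟨v, L, rfl⟩ := hA
  obtain ⟨w, M, rfl⟩ := hB
  refine ⟨(v, w), L.prod M, ?_⟩
  ext ⟨x, y⟩
  simp [AddSubgroup.mem_prod]

theorem isCos_univ {G : Type} [AddCommGroup G] : IsCos (Set.univ : Set G) :=
  ⟨0, ⊤, by ext; simp⟩

theorem isCos_singleton {G : Type} [AddCommGroup G] (a : G) : IsCos ({a} : Set G) :=
  ⟨a, ⊥, by ext; simp [AddSubgroup.mem_bot, sub_eq_zero]⟩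

theorem slice {G : Type} [AddCommGroup G] {U : Set (G × ZMod 2)} (h : IsCos U) (t : ZMod 2)
    (hne : ∃ x, (x, t) ∈ U) : IsCos {x | (x, t) ∈ U} := by
  obtain ⟨x0, hx0⟩ := hne
  obtain ⟨v, L, rfl⟩ := h
  refine ⟨x0, L.comap (AddMonoidHom.inl G (ZMod 2)), ?_⟩
  ext x
  simp only [Set.mem_ofPred_eq, AddSubgroup.mem_comap, AddMonoidHom.inl_apply] at *
  have e : (x - x0, (0 : ZMod 2)) = ((x, t) - v) - ((x0, t) - v) := by ext <;> simp
  rw [e]
  constructor
  · intro hx; exact L.sub_mem hx hx0
  · intro hx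
    have := L.add_mem hx hx0
    rwa [sub_add_cancel] at this

theorem Irr.eq_of_mem {G ι : Type} [AddCommGroup G] {P : ι → Set G} (hP : Irr P) {x : G} {i j : ι}
    (hi : x ∈ P i) (hj : x ∈ P j) : i = j :=
  (hP.cover x).unique hi hj

theorem dbl_irr {G ι : Type} [AddCommGroup G] (h2 : ∀ x : G, x + x = 0)
    {P : ι → Set G} (hP : Irr P) {i1 i2 i3 : ι} (h12 : i1 ≠ i2) (h31 : i3 ≠ i1) (h32 : i3 ≠ i2)
    {a b c d : G} (hab : a ≠ b) (hcd : c ≠ d) (e1 : P i1 = {a, b}) (e2 : P i2 = {c, d}) : Irr (dbl P i1 i2 a b c d) := by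
  classical
  have ha : a ∈ P i1 := by rw [e1]; simp
  have hb : b ∈ P i1 := by rw [e1]; simp
  have hc : c ∈ P i2 := by rw [e2]; simp
  have hd : d ∈ P i2 := by rw [e2]; simp
  have mem0 : ∀ (i : ι) (x : G), (x, (0 : ZMod 2)) ∈ dbl P i1 i2 a b c d (Sum.inl i) ↔ x ∈ P i := by
    intro i x
    simp only [dbl, Sum.elim_inl]
    split_ifs <;> simp
  have memr : ∀ (t : Bool) (x : G), (x, (0 : ZMod 2)) ∉ dbl P i1 i2 a b c d (Sum.inr t) := by
    rintro (_ | _) x <;> simp [dbl]
  have mem1 : ∀ (i : ι) (x : G), i ≠ i1 → i ≠ i2 →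
      ((x, (1 : ZMod 2)) ∈ dbl P i1 i2 a b c d (Sum.inl i) ↔ x ∈ P i) := by
    intro i x h1 h2
    simp only [dbl, Sum.elim_inl]
    rw [if_neg (by tauto)]
    simp
  have mem1' : ∀ (i : ι) (x : G), (i = i1 ∨ i = i2) →
      (x, (1 : ZMod 2)) ∉ dbl P i1 i2 a b c d (Sum.inl i) := by
    intro i x h
    simp only [dbl, Sum.elim_inl]
    rw [if_pos h]
    simp
  have memf : ∀ x : G, (x, (1 : ZMod 2)) ∈ dbl P i1 i2 a b c d (Sum.inr false) ↔ x = a ∨ x = c := by
    intro x; simp [dbl]
  have memt : ∀ x : G, (x, (1 : ZMod 2)) ∈ dbl P i1 i2 a b c d (Sum.inr true) ↔ x = b ∨ x = d := by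
    intro x; simp [dbl]
  have nac : ∀ x y, x ∈ P i1 → y ∈ P i2 → x ≠ y := by
    rintro x y hx hy rfl
    exact h12 (hP.eq_of_mem hx hy)
  have hcover : ∀ x, ∃! i, x ∈ dbl P i1 i2 a b c d i := by
    rintro ⟨x, t⟩
    obtain ⟨i, hi, hu⟩ := hP.cover x
    rcases zmod2 t with rfl | rfl
    · refine ⟨Sum.inl i, (mem0 i x).mpr hi, ?_⟩
      rintro (j | j) hj
      · rw [mem0] at hj
        exact congrArg _ (hu j hj)
      · exact absurd hj (memr j x)
    · by_cases h1 : i = i1 ∨ i = i2
      · have hx : x = a ∨ x = b ∨ x = c ∨ x = d := by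
          rcases h1 with rfl | rfl
          · rw [e1] at hi; simp at hi; tauto
          · rw [e2] at hi; simp at hi; tauto
        have hinl : ∀ j, (x, (1 : ZMod 2)) ∉ dbl P i1 i2 a b c d (Sum.inl j) := by
          intro j hj
          by_cases h : j = i1 ∨ j = i2
          · exact mem1' j x h hj
          · push Not at h
            rw [mem1 j x h.1 h.2] at hj
            have := hu j hj
            subst this
            tauto
        by_cases hac : x = a ∨ x = c
        · refine ⟨Sum.inr false, (memf x).mpr hac, ?_⟩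
          rintro (j | _ | _) hj
          · exact absurd hj (hinl j)
          · rfl
          · exfalso
            rw [memt] at hj
            rcases hac with rfl | rfl <;> rcases hj with hj | hj
            · exact hab hj
            · exact nac _ _ ha hd hj
            · exact nac _ _ hb hc hj.symm
            · exact hcd hj
        · refine ⟨Sum.inr true, (memt x).mpr (by tauto), ?_⟩
          rintro (j | _ | _) hj
          · exact absurd hj (hinl j)
          · exfalso
            rw [memf] at hj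
            exact hac hj
          · rfl
      · push Not at h1
        refine ⟨Sum.inl i, (mem1 i x h1.1 h1.2).mpr hi, ?_⟩
        have hni : x ∉ P i1 := fun h => h1.1 (hu i1 h).symm
        have hni2 : x ∉ P i2 := fun h => h1.2 (hu i2 h).symm
        rintro (j | _ | _) hj
        · by_cases h : j = i1 ∨ j = i2
          · exact absurd hj (mem1' j x h)
          · push Not at h
            rw [mem1 j x h.1 h.2] at hj
            exact congrArg _ (hu j hj)
        · exfalso
          rw [memf] at hj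
          rcases hj with rfl | rfl
          · exact hni ha
          · exact hni2 hc
        · exfalso
          rw [memt] at hj
          rcases hj with rfl | rfl
          · exact hni hb
          · exact hni2 hd
  have hcos : ∀ i, IsCos (dbl P i1 i2 a b c d i) := by
    rintro (i | t)
    · simp only [dbl, Sum.elim_inl]
      split_ifs
      · exact isCos_prod (hP.cos i) (isCos_singleton _)
      · exact isCos_prod (hP.cos i) isCos_univ
    · simp only [dbl, Sum.elim_inr]
      split_ifs
      · exact isCos_prod (isCos_pair h2 _ _) (isCos_singleton _)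
      · exact isCos_prod (isCos_pair h2 _ _) (isCos_singleton _)
  refine ⟨hcos, hcover, ?_⟩
  intro S hU
  set U : Set (G × ZMod 2) := ⋃ i ∈ S, dbl P i1 i2 a b c d i with hUdef
  have hmem : ∀ {z : G × ZMod 2} {k : ι ⊕ Bool}, z ∈ dbl P i1 i2 a b c d k → (z ∈ U ↔ k ∈ S) := by
    intro z k hz
    rw [hUdef]
    simp only [Set.mem_iUnion, exists_prop]
    constructor
    · rintro ⟨k', hk', hz'⟩
      rwa [(hcover z).unique hz hz']
    · intro hk; exact ⟨k, hk, hz⟩
  let S0 : Set ι := {i | Sum.inl i ∈ S}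
  have hU0 : ∀ x : G, (x, (0 : ZMod 2)) ∈ U ↔ x ∈ ⋃ i ∈ S0, P i := by
    intro x
    obtain ⟨i, hi, hu⟩ := hP.cover x
    rw [hmem ((mem0 i x).mpr hi)]
    simp only [Set.mem_iUnion, exists_prop]
    constructor
    · intro h; exact ⟨i, h, hi⟩
    · rintro ⟨j, hj, hxj⟩
      rwa [hu j hxj] at hj
  have hclosed : ∀ {x y z : G × ZMod 2}, x ∈ U → y ∈ U → z ∈ U → x + y - z ∈ U :=
    fun hx hy hz => hU.closed hx hy hz
  -- transfer from level 1 to level 0 and back
  have down : ∀ {x y : G}, (x, (1 : ZMod 2)) ∈ U → (y, (0 : ZMod 2)) ∈ U → (y, (1 : ZMod 2)) ∈ U →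
      (x, (0 : ZMod 2)) ∈ U := by
    intro x y hx hy0 hy1
    have := hclosed hx hy0 hy1
    have e : (x, (1 : ZMod 2)) + (y, 0) - (y, 1) = (x, 0) := by ext <;> simp
    rwa [e] at this
  have up : ∀ {x y : G}, (x, (0 : ZMod 2)) ∈ U → (y, (0 : ZMod 2)) ∈ U → (y, (1 : ZMod 2)) ∈ U →
      (x, (1 : ZMod 2)) ∈ U := by
    intro x y hx hy0 hy1
    have := hclosed hx hy1 hy0
    have e : (x, (0 : ZMod 2)) + (y, 1) - (y, 0) = (x, 1) := by ext <;> simp
    rwa [e] at this
  by_cases hne : ∃ x, (x, (0 : ZMod 2)) ∈ U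
  · have hc0 : IsCos (⋃ i ∈ S0, P i) := by
      have := slice hU 0 hne
      have e : {x | (x, (0 : ZMod 2)) ∈ U} = ⋃ i ∈ S0, P i := by
        ext x; exact hU0 x
      rwa [e] at this
    rcases hP.irr S0 hc0 with hsub | huniv
    · -- a single tile at level 0
      obtain ⟨x0, hx0⟩ := hne
      have hx0' := (hU0 x0).mp hx0
      simp only [Set.mem_iUnion, exists_prop] at hx0'
      obtain ⟨j, hj, hxj⟩ := hx0'
      have hS0 : ∀ i, Sum.inl i ∈ S → i = j := fun i hi => hsub hi hj
      have hlev0 : ∀ x, (x, (0 : ZMod 2)) ∈ U → x ∈ P j := by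
        intro x hx
        have := (hU0 x).mp hx
        simp only [Set.mem_iUnion, exists_prop] at this
        obtain ⟨k, hk, hxk⟩ := this
        rwa [hS0 k hk] at hxk
      have hjU : ∀ x ∈ P j, (x, (0 : ZMod 2)) ∈ U := fun x hx => (hmem ((mem0 j x).mpr hx)).mpr hj
      have key : ∀ t, Sum.inr t ∉ S := by
        intro t ht
        by_cases h1 : j = i1
        · subst h1
          cases t
          · have m1 : (a, (1 : ZMod 2)) ∈ U := (hmem ((memf a).mpr (Or.inl rfl))).mpr ht
            have m2 : (c, (1 : ZMod 2)) ∈ U := (hmem ((memf c).mpr (Or.inr rfl))).mpr ht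
            exact nac c c (hlev0 c (down m2 (hjU a ha) m1)) hc rfl
          · have m1 : (b, (1 : ZMod 2)) ∈ U := (hmem ((memt b).mpr (Or.inl rfl))).mpr ht
            have m2 : (d, (1 : ZMod 2)) ∈ U := (hmem ((memt d).mpr (Or.inr rfl))).mpr ht
            exact nac d d (hlev0 d (down m2 (hjU b hb) m1)) hd rfl
        · by_cases h2' : j = i2
          · subst h2'
            cases t
            · have m1 : (a, (1 : ZMod 2)) ∈ U := (hmem ((memf a).mpr (Or.inl rfl))).mpr ht
              have m2 : (c, (1 : ZMod 2)) ∈ U := (hmem ((memf c).mpr (Or.inr rfl))).mpr ht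
              exact nac a a ha (hlev0 a (down m1 (hjU c hc) m2)) rfl
            · have m1 : (b, (1 : ZMod 2)) ∈ U := (hmem ((memt b).mpr (Or.inl rfl))).mpr ht
              have m2 : (d, (1 : ZMod 2)) ∈ U := (hmem ((memt d).mpr (Or.inr rfl))).mpr ht
              exact nac b b hb (hlev0 b (down m1 (hjU d hd) m2)) rfl
          · have hj1 : (x0, (1 : ZMod 2)) ∈ U := (hmem ((mem1 j x0 h1 h2').mpr hxj)).mpr hj
            cases t
            · have m1 : (a, (1 : ZMod 2)) ∈ U := (hmem ((memf a).mpr (Or.inl rfl))).mpr ht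
              exact h1 (hP.eq_of_mem (hlev0 a (down m1 hx0 hj1)) ha)
            · have m1 : (b, (1 : ZMod 2)) ∈ U := (hmem ((memt b).mpr (Or.inl rfl))).mpr ht
              exact h1 (hP.eq_of_mem (hlev0 b (down m1 hx0 hj1)) hb)
      left
      rintro (x | x) hx (y | y) hy
      · rw [hS0 x hx, hS0 y hy]
      · exact absurd hy (key y)
      · exact absurd hx (key x)
      · exact absurd hx (key x)
    · -- everything
      right
      have hall0 : ∀ x, (x, (0 : ZMod 2)) ∈ U := by
        intro x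
        rw [hU0, huniv]
        simp only [Set.mem_univ, Set.iUnion_true]
        obtain ⟨i, hi, _⟩ := hP.cover x
        exact Set.mem_iUnion.mpr ⟨i, hi⟩
      obtain ⟨y, hy⟩ := (hP.cos i3).nonempty
      have hi3 : Sum.inl i3 ∈ S := by
        have : i3 ∈ S0 := by rw [huniv]; trivial
        exact this
      have hy1 : (y, (1 : ZMod 2)) ∈ U := (hmem ((mem1 i3 y h31 h32).mpr hy)).mpr hi3
      have hall1 : ∀ x, (x, (1 : ZMod 2)) ∈ U := fun x => up (hall0 x) (hall0 y) hy1
      ext k
      simp only [Set.mem_univ, iff_true]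
      obtain ⟨⟨z, t⟩, hz⟩ := (hcos k).nonempty
      rw [← hmem hz]
      rcases zmod2 t with rfl | rfl
      · exact hall0 z
      · exact hall1 z
  · -- nothing at level 0
    have hnoinl : ∀ i, Sum.inl i ∉ S := by
      intro i hi
      obtain ⟨x, hx⟩ := (hP.cos i).nonempty
      exact hne ⟨x, (hmem ((mem0 i x).mpr hx)).mpr hi⟩
    by_cases hboth : Sum.inr false ∈ S ∧ Sum.inr true ∈ S
    · exfalso
      have ma : (a, (1 : ZMod 2)) ∈ U := (hmem ((memf a).mpr (Or.inl rfl))).mpr hboth.1
      have hc1 : IsCos (⋃ i ∈ ({i1, i2} : Set ι), P i) := by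
        have := slice hU 1 ⟨a, ma⟩
        have e : {x | (x, (1 : ZMod 2)) ∈ U} = ⋃ i ∈ ({i1, i2} : Set ι), P i := by
          ext x
          simp only [Set.mem_ofPred_eq, Set.mem_insert_iff, Set.mem_singleton_iff, Set.iUnion_iUnion_eq_or_left,
            Set.iUnion_iUnion_eq_left, Set.mem_union]
          constructor
          · intro hx
            obtain ⟨k, hk, _⟩ := hcover (x, 1)
            have hkS := (hmem hk).mp hx
            rcases k with k | _ | _
            · exact absurd hkS (hnoinl k)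
            · rw [memf] at hk
              rcases hk with rfl | rfl
              · left; exact ha
              · right; exact hc
            · rw [memt] at hk
              rcases hk with rfl | rfl
              · left; exact hb
              · right; exact hd
          · rw [e1, e2]
            simp only [Set.mem_insert_iff, Set.mem_singleton_iff]
            rintro ((rfl | rfl) | (rfl | rfl))
            · exact ma
            · exact (hmem ((memt _).mpr (Or.inl rfl))).mpr hboth.2
            · exact (hmem ((memf _).mpr (Or.inr rfl))).mpr hboth.1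
            · exact (hmem ((memt _).mpr (Or.inr rfl))).mpr hboth.2
        rwa [e] at this
      rcases hP.irr _ hc1 with h | h
      · exact h12 (h (by simp) (by simp))
      · have : i3 ∈ ({i1, i2} : Set ι) := by rw [h]; trivial
        simp only [Set.mem_insert_iff, Set.mem_singleton_iff] at this
        tauto
    · left
      rintro (x | x) hx (y | y) hy
      · exact absurd hx (hnoinl x)
      · exact absurd hx (hnoinl x)
      · exact absurd hy (hnoinl y)
      · cases x <;> cases y
        · rfl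
        · exact absurd ⟨hx, hy⟩ hboth
        · exact absurd ⟨hy, hx⟩ hboth
        · rfl

/-! ### base cases -/

theorem isCos_of_closed {G : Type} [AddCommGroup G] {A : Set G} (hne : A.Nonempty)
    (h : ∀ x y z, x ∈ A → y ∈ A → z ∈ A → x + y - z ∈ A) : IsCos A := by
  obtain ⟨x0, hx0⟩ := hne
  refine ⟨x0, { carrier := {g | g + x0 ∈ A}, zero_mem' := by simpa using hx0, add_mem' := ?_, neg_mem' := ?_ }, ?_⟩
  · intro g g' hg hg'
    simp only [Set.mem_ofPred_eq] at *
    have := h _ _ _ hg hg' hx0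
    have e : g + x0 + (g' + x0) - x0 = g + g' + x0 := by abel
    rwa [e] at this
  · intro g hg
    simp only [Set.mem_ofPred_eq] at *
    have := h _ _ _ hx0 hx0 hg
    have e : x0 + x0 - (g + x0) = -g + x0 := by abel
    rwa [e] at this
  · ext x
    show x ∈ A ↔ x - x0 + x0 ∈ A
    rw [sub_add_cancel]

theorem irr_of_tile {G : Type} [AddCommGroup G] {n : ℕ} (t : G → Fin n) (hs : ∀ i, ∃ x, t x = i)
    (hcl : ∀ i x y z, t x = i → t y = i → t z = i → t (x + y - z) = i)
    (key : ∀ S : Finset (Fin n), (∀ x y z : G, t x ∈ S → t y ∈ S → t z ∈ S → t (x + y - z) ∈ S) →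
      S.card ≤ 1 ∨ S = Finset.univ) : Irr (fun i => {x | t x = i}) := by
  classical
  refine ⟨?_, ?_, ?_⟩
  · intro i
    obtain ⟨x, hx⟩ := hs i
    exact isCos_of_closed ⟨x, hx⟩ (hcl i)
  · intro x
    exact ⟨t x, rfl, fun j hj => hj.symm⟩
  · intro S hS
    have hmem : ∀ x, x ∈ (⋃ i ∈ S, {x | t x = i}) ↔ t x ∈ S := by
      intro x
      simp only [Set.mem_iUnion, exists_prop, Set.mem_ofPred_eq]
      constructor
      · rintro ⟨i, hi, rfl⟩; exact hi
      · intro h; exact ⟨t x, h, rfl⟩
    rcases key S.toFinset (by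
      intro x y z hx hy hz
      rw [Set.mem_toFinset] at *
      rw [← hmem] at *
      exact hS.closed hx hy hz) with h | h
    · left
      intro a ha b hb
      exact Finset.card_le_one.mp h a (Set.mem_toFinset.mpr ha) b (Set.mem_toFinset.mpr hb)
    · right
      ext a
      simp only [Set.mem_univ, iff_true]
      rw [← Set.mem_toFinset, h]
      exact Finset.mem_univ a

abbrev G3 := ZMod 2 × ZMod 2 × ZMod 2

abbrev G4 := ZMod 2 × ZMod 2 × ZMod 2 × ZMod 2

/-- 4 lines with pairwise different directions in `F_2^3` -/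
def tile4 (x : G3) : Fin 4 :=
  let n := x.1.val + 2 * x.2.1.val + 4 * x.2.2.val
  (![0,1,2,2,3,0,3,1] : Fin 8 → Fin 4) ⟨n % 8, by omega⟩

/-- an irreducible partition of `F_2^4` with 7 parts -/
def tile7 (x : G4) : Fin 7 :=
  let n := x.1.val + 2 * x.2.1.val + 4 * x.2.2.1.val + 8 * x.2.2.2.val
  (![0,1,2,0,3,4,2,1,5,6,5,4,6,0,0,3] : Fin 16 → Fin 7) ⟨n % 16, by omega⟩

theorem irr4 : Irr (fun i => {x | tile4 x = i}) :=
  irr_of_tile tile4 (by decide +kernel) (by decide +kernel) (by decide +kernel)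

theorem irr7 : Irr (fun i => {x | tile7 x = i}) :=
  irr_of_tile tile7 (by decide +kernel) (by decide +kernel) (by decide +kernel)

/-- irreducible coset partition with `n` parts of a finite quotient of some `ℤ^d` -/
def HasIrr (n : ℕ) : Prop :=
  ∃ (G : Type) (_ : AddCommGroup G) (_ : Finite G) (d : ℕ) (π : (Fin d → ℤ) →+ G) (ι : Type)
    (_ : Fintype ι) (P : ι → Set G), 1 ≤ d ∧ Function.Surjective π ∧ Fintype.card ι = n ∧ Irr P

/-- the same over `F_2`, with two tiles of size two -/
def Good (n : ℕ) : Prop :=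
  ∃ (G : Type) (_ : AddCommGroup G) (_ : Finite G) (d : ℕ) (π : (Fin d → ℤ) →+ G) (ι : Type)
    (_ : Fintype ι) (P : ι → Set G) (i1 i2 i3 : ι) (a b c c' : G), 1 ≤ d ∧ Function.Surjective π ∧
    Fintype.card ι = n ∧ Irr P ∧ (∀ x : G, x + x = 0) ∧ i1 ≠ i2 ∧ i3 ≠ i1 ∧ i3 ≠ i2 ∧ a ≠ b ∧ c ≠ c' ∧
    P i1 = {a, b} ∧ P i2 = {c, c'}

theorem Good.hasIrr {n : ℕ} (h : Good n) : HasIrr n := by
  obtain ⟨G, i1, i2, d, π, ι, i3, P, _, _, _, _, _, _, _, h1, h2, h3, h4, _⟩ := h
  exact ⟨G, i1, i2, d, π, ι, i3, P, h1, h2, h3, h4⟩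

theorem Good.step {n : ℕ} (h : Good n) : Good (n + 2) := by
  obtain ⟨G, _, _, d, π, ι, _, P, i1, i2, i3, a, b, c, c', h1, hsurj, hcard, hirr, h2, h12, h31, h32,
    hab, hcd, e1, e2⟩ := h
  let π' : (Fin (d + 1) → ℤ) →+ G × ZMod 2 :=
    { toFun := fun x => (π (fun i => x i.castSucc), ((x (Fin.last d) : ℤ) : ZMod 2))
      map_zero' := by
        ext
        · show π (fun _ => 0) = 0
          exact π.map_zero
        · simp
      map_add' := by
        intro x y
        ext
        · show π (fun i => x i.castSucc + y i.castSucc) = _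
          exact π.map_add (fun i => x i.castSucc) (fun i => y i.castSucc)
        · simp }
  refine ⟨G × ZMod 2, inferInstance, inferInstance, d + 1, π', ι ⊕ Bool, inferInstance,
    dbl P i1 i2 a b c c', Sum.inl i1, Sum.inl i2, Sum.inl i3, (a, 0), (b, 0), (c, 0), (c', 0), by omega,
    ?_, ?_, dbl_irr h2 hirr h12 h31 h32 hab hcd e1 e2, ?_, ?_, ?_, ?_, ?_, ?_, ?_, ?_⟩
  · rintro ⟨g, t⟩
    obtain ⟨x, rfl⟩ := hsurj g
    refine ⟨Fin.snoc x (t.val : ℤ), ?_⟩
    show (π (fun i => (Fin.snoc x (t.val : ℤ) : Fin (d + 1) → ℤ) i.castSucc), _) = _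
    ext
    · simp
    · simp
  · rw [Fintype.card_sum, hcard, Fintype.card_bool]
  · rintro ⟨x, t⟩
    ext
    · exact h2 x
    · show t + t = 0
      rcases zmod2 t with rfl | rfl <;> decide
  · exact fun h => h12 (Sum.inl_injective h)
  · exact fun h => h31 (Sum.inl_injective h)
  · exact fun h => h32 (Sum.inl_injective h)
  · exact fun h => hab (Prod.ext_iff.mp h).1
  · exact fun h => hcd (Prod.ext_iff.mp h).1
  · simp only [dbl, Sum.elim_inl]
    rw [if_pos (Or.inl rfl), e1]
    ext ⟨x, t⟩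
    simp only [Set.mem_prod, Set.mem_insert_iff, Set.mem_singleton_iff, Prod.mk.injEq]
    tauto
  · simp only [dbl, Sum.elim_inl]
    rw [if_pos (Or.inr rfl), e2]
    ext ⟨x, t⟩
    simp only [Set.mem_prod, Set.mem_insert_iff, Set.mem_singleton_iff, Prod.mk.injEq]
    tauto

/-- reduction modulo two -/
def red2 (d : ℕ) (G : Type) [AddCommGroup G] (f : (Fin d → ZMod 2) →+ G) : (Fin d → ℤ) →+ G :=
  f.comp (AddMonoidHom.pi (fun i => (Int.castAddHom (ZMod 2)).comp (Pi.evalAddMonoidHom (fun _ => ℤ) i)))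

theorem good4 : Good 4 := by
  let f : (Fin 3 → ZMod 2) →+ G3 :=
    { toFun := fun x => (x 0, x 1, x 2)
      map_zero' := rfl
      map_add' := fun _ _ => rfl }
  refine ⟨G3, inferInstance, inferInstance, 3, red2 3 G3 f, Fin 4, inferInstance,
    fun i => {x | tile4 x = i}, 0, 1, 2, (0, 0, 0), (1, 0, 1), (1, 0, 0), (1, 1, 1), by norm_num, ?_,
    by simp, irr4, by decide, by decide, by decide, by decide, by decide, by decide, ?_, ?_⟩
  · rintro ⟨x, y, z⟩
    refine ⟨![(x.val : ℤ), y.val, z.val], ?_⟩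
    simp [red2, f, AddMonoidHom.pi]
  · ext x
    simp only [Set.mem_ofPred_eq, Set.mem_insert_iff, Set.mem_singleton_iff]
    revert x; decide +kernel
  · ext x
    simp only [Set.mem_ofPred_eq, Set.mem_insert_iff, Set.mem_singleton_iff]
    revert x; decide +kernel

theorem good7 : Good 7 := by
  let f : (Fin 4 → ZMod 2) →+ G4 :=
    { toFun := fun x => (x 0, x 1, x 2, x 3)
      map_zero' := rfl
      map_add' := fun _ _ => rfl }
  refine ⟨G4, inferInstance, inferInstance, 4, red2 4 G4 f, Fin 7, inferInstance,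
    fun i => {x | tile7 x = i}, 1, 2, 0, (1, 0, 0, 0), (1, 1, 1, 0), (0, 1, 0, 0), (0, 1, 1, 0),
    by norm_num, ?_,
    by simp, irr7, by decide, by decide, by decide, by decide, by decide, by decide, ?_, ?_⟩
  · rintro ⟨x, y, z, w⟩
    refine ⟨![(x.val : ℤ), y.val, z.val, w.val], ?_⟩
    simp [red2, f, AddMonoidHom.pi]
  · ext x
    simp only [Set.mem_ofPred_eq, Set.mem_insert_iff, Set.mem_singleton_iff]
    revert x; decide +kernel
  · ext x
    simp only [Set.mem_ofPred_eq, Set.mem_insert_iff, Set.mem_singleton_iff]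
    revert x; decide +kernel

theorem good_even (k : ℕ) : Good (4 + 2 * k) := by
  induction k with
  | zero => exact good4
  | succ k ih => exact ih.step

theorem good_odd (k : ℕ) : Good (7 + 2 * k) := by
  induction k with
  | zero => exact good7
  | succ k ih => exact ih.step

theorem hasIrr_prime (p : ℕ) (hp : p.Prime) : HasIrr p := by
  haveI := Fact.mk hp
  let π : (Fin 1 → ℤ) →+ ZMod p := (Int.castAddHom (ZMod p)).comp (Pi.evalAddMonoidHom (fun _ => ℤ) 0)
  refine ⟨ZMod p, inferInstance, inferInstance, 1, π, ZMod p, inferInstance, fun i => {i}, le_rfl,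
    ?_, ZMod.card p, ⟨fun i => isCos_singleton i, fun x => ⟨x, rfl, fun j hj => hj.symm⟩, ?_⟩⟩
  · intro x
    refine ⟨fun _ => (x.val : ℤ), ?_⟩
    simp [π]
  · intro S hS
    have e : (⋃ i ∈ S, ({i} : Set (ZMod p))) = S := by simp
    rw [e] at hS
    obtain ⟨v, L, hL⟩ := hS
    by_cases hsub : S.Subsingleton
    · exact Or.inl hsub
    · right
      rw [Set.not_subsingleton_iff] at hsub
      obtain ⟨x, hx, y, hy, hxy⟩ := hsub
      have htop : L = ⊤ := by
        have hc : (Nat.card (ZMod p)).Prime := by rw [Nat.card_zmod]; exact hp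
        haveI := Fact.mk hc
        rcases AddSubgroup.eq_bot_or_eq_top_of_prime_card L with h | h
        · exfalso
          rw [hL, h] at hx hy
          simp only [Set.mem_ofPred_eq, AddSubgroup.mem_bot, sub_eq_zero] at hx hy
          exact hxy (hx.trans hy.symm)
        · exact h
      rw [hL, htop]
      ext; simp

theorem hasIrr_one : HasIrr 1 := by
  refine ⟨Unit, inferInstance, inferInstance, 1, 0, Unit, inferInstance, fun _ => Set.univ, le_rfl,
    fun x => ⟨0, rfl⟩, rfl, ⟨fun _ => isCos_univ, fun x => ⟨(), trivial, fun _ _ => rfl⟩, fun S _ =>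
      Or.inl (Set.subsingleton_of_subsingleton)⟩⟩

theorem hasIrr_all (n : ℕ) (hn : 1 ≤ n) : HasIrr n := by
  by_cases h1 : n = 1
  · subst h1; exact hasIrr_one
  by_cases h2 : n = 2
  · subst h2; exact hasIrr_prime 2 Nat.prime_two
  by_cases h3 : n = 3
  · subst h3; exact hasIrr_prime 3 Nat.prime_three
  by_cases h5 : n = 5
  · subst h5; exact hasIrr_prime 5 Nat.prime_five
  rcases Nat.even_or_odd n with ⟨k, hk⟩ | ⟨k, hk⟩
  · have := (good_even (k - 2)).hasIrr
    rwa [show 4 + 2 * (k - 2) = n from by omega] at this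
  · have := (good_odd (k - 3)).hasIrr
    rwa [show 7 + 2 * (k - 3) = n from by omega] at this

/-! ### transfer to `ℤ^d` -/

theorem isLatticeTranslate_preimage {G : Type} [AddCommGroup G] [Finite G] {d : ℕ}
    (π : (Fin d → ℤ) →+ G) (hπ : Function.Surjective π) {A : Set G} (hA : IsCos A) :
    IsLatticeTranslate (π ⁻¹' A) := by
  obtain ⟨v, L, rfl⟩ := hA
  obtain ⟨w, rfl⟩ := hπ v
  refine ⟨w, L.comap π, ?_, ?_⟩
  · haveI : π.ker.FiniteIndex := AddSubgroup.finiteIndex_ker π
    exact AddSubgroup.finiteIndex_of_le (AddMonoidHom.ker_le_comap π L)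
  · ext x
    simp [coset, AddSubgroup.mem_comap, map_sub]

/-- **Theorem.** For every positive integer `n` there are a dimension `d ≥ 1` and a primitive
lattice tiling of `ℤ^d` with exactly `n` lattice translates. -/
theorem result (n : ℕ) (hn : 1 ≤ n) :
    ∃ (d : ℕ) (T : Fin n → Set (Fin d → ℤ)), 1 ≤ d ∧ IsLatticeTiling T ∧ ¬ Splits T := by
  obtain ⟨G, _, _, d, π, ι, _, P, hd, hπ, hcard, hP⟩ := hasIrr_all n hn
  let e : Fin n ≃ ι := (finCongr hcard.symm).trans (Fintype.equivFin ι).symm
  refine ⟨d, fun i => π ⁻¹' (P (e i)), hd, ⟨fun i => isLatticeTranslate_preimage π hπ (hP.cos _), ?_⟩, ?_⟩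
  · intro x
    obtain ⟨i, hi, hu⟩ := hP.cover (π x)
    refine ⟨e.symm i, by simpa using hi, ?_⟩
    intro j hj
    have := hu (e j) hj
    rw [← this, Equiv.symm_apply_apply]
  · rintro ⟨k, I, hk, hsurj, hninj, hun⟩
    rw [Function.Injective] at hninj
    push Not at hninj
    obtain ⟨i, i', hii, hne⟩ := hninj
    obtain ⟨w, M, _, hw⟩ := hun (I i)
    have hcos : IsCos (⋃ s ∈ (e '' {j | I j = I i}), P s) := by
      refine ⟨π w, M.map π, ?_⟩
      ext x
      obtain ⟨y, rfl⟩ := hπ x
      have hy : π y ∈ (⋃ s ∈ (e '' {j | I j = I i}), P s) ↔ y ∈ ⋃ j ∈ {j | I j = I i}, π ⁻¹' (P (e j)) := by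
        simp only [Set.mem_iUnion, exists_prop, Set.mem_image, Set.mem_ofPred_eq, Set.mem_preimage]
        constructor
        · rintro ⟨s, ⟨j, hj, rfl⟩, hs⟩
          exact ⟨j, hj, hs⟩
        · rintro ⟨j, hj, hs⟩
          exact ⟨e j, ⟨j, hj, rfl⟩, hs⟩
      simp only [Set.mem_ofPred_eq, AddSubgroup.mem_map]
      constructor
      · intro h
        rw [hy, hw] at h
        exact ⟨y - w, h, by rw [map_sub]⟩
      · rintro ⟨m, hm, hm2⟩
        have h1 : w + m ∈ coset w M := by
          simp only [coset, Set.mem_ofPred_eq]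
          rwa [add_sub_cancel_left]
        rw [← hw] at h1
        have h2 : π (w + m) ∈ (⋃ s ∈ (e '' {j | I j = I i}), P s) := by
          simp only [Set.mem_iUnion, exists_prop, Set.mem_image, Set.mem_ofPred_eq, Set.mem_preimage] at h1 ⊢
          obtain ⟨j, hj, hs⟩ := h1
          exact ⟨e j, ⟨j, hj, rfl⟩, hs⟩
        have h3 : π (w + m) = π y := by
          rw [map_add, hm2]; abel
        rwa [h3] at h2
    rcases hP.irr _ hcos with h | h
    · have h1 := h (Set.mem_image_of_mem e (show i ∈ {j | I j = I i} from rfl))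
        (Set.mem_image_of_mem e (show i' ∈ {j | I j = I i} from hii.symm))
      exact hne (e.injective h1)
    · have hall : ∀ j, I j = I i := by
        intro j
        have : e j ∈ e '' {j | I j = I i} := by rw [h]; trivial
        obtain ⟨j', hj', he⟩ := this
        rw [← e.injective he]
        exact hj'
      obtain ⟨j0, hj0⟩ := hsurj ⟨0, by omega⟩
      obtain ⟨j1, hj1⟩ := hsurj ⟨1, by omega⟩
      rw [hall j0] at hj0
      rw [hall j1, hj0] at hj1
      simp at hj1

end Pool.Agent.Results.MP_f7d7fe_co.AllSizes
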